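import Pool.Agent.Helper35.GT.Asym

/-!
# MP_d389c4_lc: the worst case ratio of the balanced-split greedy algorithm is asymptotic to `2 ln n / ln ln n`

The definitions are in `Pool.Agent.Helper35.GT.Defs`: items are vectors in `{0,1}^m`, tests are coordinates, and `rho n` is
the supremum over all instances with `n` items and all ways of breaking ties of the cost of the greedy tree divided by the
minimum cost.

Upper bound (`Rd`, `Crude`, `Sharp`, `Upper`): a potential argument with the optimal tree `T` of the whole instance. For a set
`S` of items `mu S` is the sum over `x ∈ S` of the number of nodes on the path of `x` in `T` whose test splits `S`. A greedy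
node with `s` items and light part with `a` items has `s ^ 2 ≤ 2 a mu S`. The potential is
`A * idx S * mu S + K * psi S + 2 Q s ln s + (1 + 16 R) * mu S` with `A = 2 + δ`, where `idx` is the integral part of the
logarithm of `s` to the base `Q = (ln n) ^ (1 - η)` and `psi` is an entropy term.

Lower bound (`Trees`, `Inst`, `Lower`, `Asym`): `K` groups of `N` items with `K` about `ln n ln ln n`; a good tree separates
the groups one by one, and the greedy algorithm splits off about the `K`-th part of all groups.
-/

open Filter Topology
open Pool.Agent.Helper35.GT

namespace Pool.Agent.Results.MP_d389c4_lc.SharpConstant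

/-- `ρ(n) ~ 2 ln n / ln ln n` (and the suprema `ρ(n)` are finite) -/
theorem result : (∀ n : ℕ, BddAbove (ratios n)) ∧
    Tendsto (fun n : ℕ => rho n * Real.log (Real.log n) / Real.log n) atTop (𝓝 2) :=
  ⟨ratios_bdd, limit⟩

end Pool.Agent.Results.MP_d389c4_lc.SharpConstant
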